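import Pool.Agent.Lib_helper21.TriCircuitProof

namespace Pool.Agent.Lib_helper21.Superseded.ConstantDepthCircuits

open Pool.Agent.Lib_helper21.TriCircuit

/-- Circuits of depth at most `d`, built from AND/OR type gates of unbounded fan-in (negations are
free) and from arbitrary gates of fan-in at most `b`, that detect triangles in graphs on `n`
vertices have at least `n ^ (2 + 4 ^ (1 - d)) / (1024 * max (576 (log₂ n + 1)²) b ^ 2)` gates. -/
theorem result (n d b : ℕ) (hd : 1 ≤ d) (hn : 1024 ^ 4 ^ (d - 1) ≤ n)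
    (C : Circuit (Sym2 (Fin n)) b) (hdepth : ∀ g, C.level g < d) (hC : C.DetectsTriangles) :
    (n : ℝ) ^ (2 + 1 / (4 : ℝ) ^ (d - 1)) ≤
      1024 * ((max (576 * (Nat.log 2 n + 1) ^ 2) b : ℕ) : ℝ) ^ 2 * C.size :=
  main n d b hd hn C hdepth hC

end Pool.Agent.Lib_helper21.Superseded.ConstantDepthCircuits
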