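import Pool.Agent.Lib_helper21.TriPRAMProof

namespace Pool.Agent.Lib_helper21.Superseded.ConstantTimePRAM

open Pool.Agent.Lib_helper21.TriPRAM

/-- A PRIORITY CRCW PRAM with unbounded words and arbitrary local computations that decides in `T`
steps whether a graph on `n` vertices contains a triangle has at least
`n ^ (2 + 4 ^ (1 - 2T)) / (2048 * (576 (log₂ n + 1)²)²)` processors. -/
theorem result (n T : ℕ) (hT : 1 ≤ T) (hn : 1024 ^ 4 ^ (2 * T - 1) ≤ n) (M : PRAM n)
    (hM : M.DetectsTriangles T) :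
    (n : ℝ) ^ (2 + 1 / (4 : ℝ) ^ (2 * T - 1)) ≤
      2048 * (576 * ((Nat.log 2 n : ℝ) + 1) ^ 2) ^ 2 * M.procs :=
  main n T hT hn M hM

end Pool.Agent.Lib_helper21.Superseded.ConstantTimePRAM
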