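import Pool.Agent.Lib_helper21.SeqFinal

namespace Pool.Agent.Lib_helper21.Superseded.MultiHeadTimeSpace

open Pool.Agent.Lib_helper21.Seq

/-- A nondeterministic, nonuniform machine with `k` two-way heads on the adjacency matrix, with at
most `2 ^ S` memory states, that accepts within `T` steps exactly the triangle-free graphs on `n`
vertices satisfies `n ^ (8 - ε) ≤ T ^ 3 * k ^ 5 * (S + k)` for all large `n`. -/
theorem result (ε : ℝ) (hε : 0 < ε) : ∃ n0 : ℕ, ∀ n ≥ n0, ∀ k S T : ℕ, 1 ≤ k →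
    ∀ (Q : Type) [Fintype Q], Fintype.card Q ≤ 2 ^ S → ∀ M : Machine n k Q,
      RecognisesTriangleFree M T →
      (n : ℝ) ^ (8 - ε) ≤ (T : ℝ) ^ 3 * (k : ℝ) ^ 5 * ((S : ℝ) + k) :=
  main ε hε

end Pool.Agent.Lib_helper21.Superseded.MultiHeadTimeSpace
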