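import Pool.Agent.Lib_helper21.TS.Final

/-!
# A time-space trade-off for triangle detection on random-access machines
-/

namespace Pool.Agent.Lib_helper21.Superseded.RandomAccessTimeSpace

open Pool.Agent.TS

/-- For every `ε > 0` there are `c > 0` and `s₀` such that for every `s ≥ s₀` there are a number `n`
of vertices and a degree sequence `δ` with `n + (∑ δ) / 2 = s` and the following property. If a
nondeterministic random-access machine with at most `2 ^ (s ^ (1 - ε))` memory states, which reads
one entry of an adjacency list (or asks whether two vertices are adjacent) per step, accepts within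
`T` steps exactly the triangle-free graphs with degree sequence `δ`, then `T ≥ c * s * log s`. -/
theorem result (ε : ℝ) (hε : 0 < ε) :
    ∃ c : ℝ, 0 < c ∧ ∃ s₀ : ℕ, ∀ s : ℕ, s₀ ≤ s →
      ∃ (n : ℕ) (δ : Fin n → ℕ), 2 * n + ∑ v, δ v = 2 * s ∧
        ∀ (Q : Type) [Fintype Q] (M : Machine n Q) (T : ℕ),
          Real.logb 2 (Fintype.card Q) ≤ (s : ℝ) ^ (1 - ε) →
          (∀ G : SimpleGraph (Fin n), (∀ v, (adjList G v).length = δ v) →
            (M.Accepts T G ↔ G.CliqueFree 3)) →
          c * s * Real.log s ≤ T :=
  main_bound ε hε

end Pool.Agent.Lib_helper21.Superseded.RandomAccessTimeSpace
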