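import Pool.Agent.Lib_helper21.TS2.Final

/-!
# A time-space trade-off for triangle detection on random-access machines, for all space bounds
-/

namespace Pool.Agent.Results.MP_ad5e8e_lc.RandomAccessTradeoff

open Pool.Agent.TS

/-- There are `c > 0` and `C` such that for all `s` and `S ≥ 1` with `s ≥ C * S` there are a number
`n` of vertices and a degree sequence `δ` with `n + (∑ δ) / 2 = s` and the following property. If a
nondeterministic random-access machine with at most `2 ^ S` memory states, which reads one entry of
an adjacency list (or asks whether two vertices are adjacent) per step, accepts within `T` steps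
exactly the triangle-free graphs among the graphs with degree sequence `δ`, then
`T ≥ c * s * log (s / S)`. -/
theorem result : ∃ c : ℝ, 0 < c ∧ ∃ C : ℕ, ∀ s S : ℕ, 1 ≤ S → C * S ≤ s →
    ∃ (n : ℕ) (δ : Fin n → ℕ), 2 * n + ∑ v, δ v = 2 * s ∧
      ∀ (Q : Type) [Fintype Q] (M : Machine n Q) (T : ℕ),
        Real.logb 2 (Fintype.card Q) ≤ S →
        (∀ G : SimpleGraph (Fin n), (∀ v, (adjList G v).length = δ v) →
          (M.Accepts T G ↔ G.CliqueFree 3)) →
        c * s * Real.log (s / S) ≤ T :=
  Pool.Agent.TS2.main_bound

end Pool.Agent.Results.MP_ad5e8e_lc.RandomAccessTradeoff
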