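import Pool.Agent.Lib_helper65.Rand.RMain

namespace Pool.Agent.Results.MP_ad5e8e_lc.RandomizedMultiHead

open Pool.Agent.Lib_helper65.Rand MeasureTheory

/-- A randomised nonuniform machine with `k` two-way heads on the adjacency matrix and at most
`2 ^ S` memory states that detects triangles in `n`-vertex graphs with two-sided error at most
`1 / 3` in expected time at most `T` satisfies `n ^ (7 / 2 - ε) ≤ T ^ (3 / 2) * k ^ 2 * (S + k)` for
all large `n`. -/
theorem result (ε : ℝ) (hε : 0 < ε) : ∃ n0 : ℕ, ∀ n ≥ n0, ∀ (k S : ℕ) (T : ℝ), 1 ≤ k →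
    ∀ (Q Ω : Type) [Fintype Q] [MeasurableSpace Ω] (μ : Measure Ω) [IsProbabilityMeasure μ],
      Fintype.card Q ≤ 2 ^ S → ∀ M : RMachine n k Q Ω, M.DetectsTriangles μ → M.ExpectedTimeLE μ T →
      (n : ℝ) ^ (7 / 2 - ε) ≤ T ^ (3 / 2 : ℝ) * (k : ℝ) ^ 2 * ((S : ℝ) + k) :=
  main ε hε

end Pool.Agent.Results.MP_ad5e8e_lc.RandomizedMultiHead
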