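import Pool.Agent.Lib_helper21.TR.Final

/-!
# A time-space trade-off for triangle detection on randomised random-access machines
-/

namespace Pool.Agent.Lib_helper21.Superseded.RandomizedRandomAccess

open MeasureTheory Pool.Agent.TR

/-- For every `ε > 0` there are `c > 0` and `s₀` such that for every `s ≥ s₀` there are a number `n`
of vertices and a degree sequence `δ` with `n + (∑ δ) / 2 = s` and the following property. If a
randomised random-access machine with at most `2 ^ (s ^ (1 - ε))` memory states, which reads one
entry of an adjacency list (or asks whether two vertices are adjacent) per step, answers correctly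
with probability at least `2 / 3` on every graph with degree sequence `δ` whether there is a
triangle, and its expected running time is at most `T` on all these graphs, then
`T ≥ c * s * log s / log log s`. -/
theorem result (ε : ℝ) (hε : 0 < ε) :
    ∃ c : ℝ, 0 < c ∧ ∃ s₀ : ℕ, ∀ s : ℕ, s₀ ≤ s →
      ∃ (n : ℕ) (δ : Fin n → ℕ), 2 * n + ∑ v, δ v = 2 * s ∧
        ∀ (Q Ω : Type) [Fintype Q] [MeasurableSpace Ω] (μ : Measure Ω) [IsProbabilityMeasure μ]
          (M : RAM n Q Ω) (T : ℝ),
          Real.logb 2 (Fintype.card Q) ≤ (s : ℝ) ^ (1 - ε) →
          M.DetectsTriangles μ δ → M.ExpectedTimeLE μ δ T →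
          c * s * Real.log s / Real.log (Real.log s) ≤ T :=
  main_bound ε hε

end Pool.Agent.Lib_helper21.Superseded.RandomizedRandomAccess
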