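import Pool.Agent.Lib_helper21.TR.Final2

/-!
# A time-space trade-off for triangle detection on randomised random-access machines, for all
space bounds up to `s / (log s) ^ C`
-/

namespace Pool.Agent.Results.MP_ad5e8e_lc.RandomizedTradeoff

open MeasureTheory Pool.Agent.TR

/-- There are `c > 0`, `C` and `s₀` such that for all `s ≥ s₀` and `S ≥ 1` with
`S * (log s) ^ C ≤ s` there are a number `n` of vertices and a degree sequence `δ` with
`n + (∑ δ) / 2 = s` and the following property. If a randomised random-access machine with at most
`2 ^ S` memory states, which reads one entry of an adjacency list (or asks whether two vertices are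
adjacent) per step, answers correctly with probability at least `2 / 3` on every graph with degree
sequence `δ` whether there is a triangle, and its expected running time is at most `T` on all these
graphs, then `T ≥ c * s * log (s / S) / log log (s / S)`. -/
theorem result : ∃ c : ℝ, 0 < c ∧ ∃ C s₀ : ℕ, ∀ s S : ℕ, s₀ ≤ s → 1 ≤ S →
    S * Real.log s ^ C ≤ s →
    ∃ (n : ℕ) (δ : Fin n → ℕ), 2 * n + ∑ v, δ v = 2 * s ∧
      ∀ (Q Ω : Type) [Fintype Q] [MeasurableSpace Ω] (μ : Measure Ω) [IsProbabilityMeasure μ]
        (M : RAM n Q Ω) (T : ℝ),
        Real.logb 2 (Fintype.card Q) ≤ S →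
        M.DetectsTriangles μ δ → M.ExpectedTimeLE μ δ T →
        c * s * Real.log (s / S) / Real.log (Real.log (s / S)) ≤ T :=
  main_all

end Pool.Agent.Results.MP_ad5e8e_lc.RandomizedTradeoff
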